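import Pool.Agent.Y998.LQ.Defs
import Pool.Agent.Y664.CN.TR

/-!
# LQ-TOW: induction over the levels of the tower
-/

set_option autoImplicit false

namespace Pool.Agent.Y764.LQ

open Finset Equiv Filter Topology Pool.Agent.Y998.ST Pool.Agent.Y998.CN Pool.Agent.Y998.LP
  Pool.Agent.Y998.LQ

theorem Zf_nonneg {V : Type} [Fintype V] [DecidableEq V] (q : ℕ) {J : V → V → ℝ}
    (hJ : ∀ x y, 0 ≤ J x y) {t : ℝ} (ht : 0 ≤ t) : 0 ≤ Zf q J t := by
  rw [← Pool.Agent.Y664.CN.t_TR V J q t]
  exact Finset.sum_nonneg fun g _ => mul_nonneg (law_nonneg hJ ht g) (by positivity)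

theorem t_TOW (hCOM : S_COM) (hSUP : S_SUP) (hORB : S_ORB) : S_TOW := by
  intro V I _ _ q β c R t ht hR hb hinv hnest hinj K
  have hmono : ∀ (i K : ℕ), i ≤ K → ∀ x y, β i x = β i y → β K x = β K y := by
    intro i K hiK
    induction hiK with
    | refl => exact fun x y h => h
    | step _ ih => exact fun x y h => ((hnest _ x y).1 (ih x y h)).1
  have hsupp : ∀ (K : ℕ) (x y : V), β K x ≠ β K y → ∑ i ∈ range K, R (i + 1) x y = 0 := by
    intro K x y h
    apply Finset.sum_eq_zero
    intro i hi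
    rw [Finset.mem_range] at hi
    by_contra hcon
    have h1 : β (i + 1) x = β (i + 1) y := by
      by_contra h2
      exact hcon (hb (i + 1) x y h2)
    exact h (hmono (i + 1) K (by omega) x y h1)
  induction K with
  | zero =>
    rw [Finset.range_zero, Finset.prod_empty]
    have h1 : (Nat.card {σ : Perm V // ∀ v, β 0 (σ v) = β 0 v} : ℝ) ≤ 1 := by
      have : Subsingleton {σ : Perm V // ∀ v, β 0 (σ v) = β 0 v} := by
        constructor
        rintro ⟨σ, hσ⟩ ⟨τ, hτ⟩
        apply Subtype.ext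
        ext v
        simp only
        rw [hinj (hσ v), hinj (hτ v)]
      exact_mod_cast Finite.card_le_one_iff_subsingleton.2 this
    have hJ0 : ∀ x y : V, 0 ≤ (fun x y : V => ∑ i ∈ range 0, R (i + 1) x y) x y := by
      intro x y; simp
    have h2 : stirLaw (fun x y : V => ∑ i ∈ range 0, R (i + 1) x y) t 1 ≤ 1 := by
      rw [← law_sum (fun x y : V => ∑ i ∈ range 0, R (i + 1) x y) t]
      exact Finset.single_le_sum (f := fun g => stirLaw (fun x y : V =>
        ∑ i ∈ range 0, R (i + 1) x y) t g) (fun g _ => law_nonneg hJ0 ht g) (Finset.mem_univ 1)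
    have h3 : 0 ≤ stirLaw (fun x y : V => ∑ i ∈ range 0, R (i + 1) x y) t 1 :=
      law_nonneg hJ0 ht 1
    simp only [Finset.range_zero] at h2 h3
    exact mul_le_one₀ h1 h3 h2
  | succ K ih =>
    obtain ⟨Kr, hKr⟩ : ∃ Kr : V → V → ℝ, Kr = fun x y => ∑ i ∈ range K, R (i + 1) x y := ⟨_, rfl⟩
    have hKr0 : ∀ x y, 0 ≤ Kr x y := by
      intro x y
      rw [hKr]
      exact Finset.sum_nonneg fun i _ => hR _ _ _
    have hKs : ∀ x y, β K x ≠ β K y → Kr x y = 0 := by
      intro x y h
      rw [hKr]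
      exact hsupp K x y h
    have e1 : (fun x y => ∑ i ∈ range (K + 1), R (i + 1) x y) =
        fun x y => R (K + 1) x y + Kr x y := by
      funext x y
      rw [Finset.sum_range_succ, hKr, add_comm]
    rw [← hKr] at ih
    rw [e1]
    have hpres : ∀ x y, β (K + 1) x = β (K + 1) y → ∀ v, β (K + 1) (swap x y v) = β (K + 1) v := by
      intro x y h v
      by_cases h1 : v = x
      · rw [h1, swap_apply_left, h]
      · by_cases h2 : v = y
        · rw [h2, swap_apply_right, h]
        · rw [swap_apply_of_ne_of_ne h1 h2]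
    have h1 := hCOM V (R (K + 1)) Kr t (by
      intro x y hxy u v
      apply hinv (K + 1) (swap x y)
      apply hpres
      apply hmono K (K + 1) (Nat.le_succ K)
      by_contra h2
      exact hxy (hKs x y h2)) 1
    rw [h1]
    have h2 : ∑ k, stirLaw (R (K + 1)) t k * stirLaw Kr t (k⁻¹ * 1) ≤
        stirLaw Kr t 1 * ∑ g : Perm V, (if ∀ v, c K (g v) = c K v then stirLaw (R (K + 1)) t g else 0) := by
      rw [Finset.mul_sum]
      refine Finset.sum_le_sum fun k _ => ?_
      rw [mul_one]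
      have hl := law_nonneg (hR (K + 1)) ht k
      by_cases h3 : ∀ v, β K (k v) = β K v
      · rw [if_pos (fun v => ((hnest K (k v) v).1 (h3 v)).2), mul_comm]
        exact mul_le_mul_of_nonneg_right (law_max Kr t k⁻¹) hl
      · have h4 : stirLaw Kr t k⁻¹ = 0 := by
          apply hSUP V I (β K) Kr t hKs
          push Not at h3
          obtain ⟨v, hv⟩ := h3
          refine ⟨k v, ?_⟩
          rw [show k⁻¹ (k v) = v from k.symm_apply_apply v]
          exact Ne.symm hv
        rw [h4, mul_zero]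
        refine mul_nonneg (law_nonneg hKr0 ht 1) ?_
        split_ifs
        · exact hl
        · exact le_rfl
    have h3 := hORB V I (β (K + 1)) q (c K) (R (K + 1)) t ht (hR (K + 1)) (hinv (K + 1))
    have e2 : Nat.card {σ : Perm V // ∀ v, β (K + 1) (σ v) = β (K + 1) v ∧ c K (σ v) = c K v} =
        Nat.card {σ : Perm V // ∀ v, β K (σ v) = β K v} := by
      apply Nat.card_congr
      exact Equiv.subtypeEquivRight fun σ => forall_congr' fun v => (hnest K (σ v) v).symm
    rw [e2] at h3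
    rw [Finset.prod_range_succ]
    have hz := Zf_nonneg q (hR (K + 1)) ht
    have hl1 := law_nonneg hKr0 ht (1 : Perm V)
    obtain ⟨S, hS⟩ : ∃ S, S = ∑ g : Perm V,
      (if ∀ v, c K (g v) = c K v then stirLaw (R (K + 1)) t g else 0) := ⟨_, rfl⟩
    rw [← hS] at h2 h3
    calc (Nat.card {σ : Perm V // ∀ v, β (K + 1) (σ v) = β (K + 1) v} : ℝ) *
          ∑ k, stirLaw (R (K + 1)) t k * stirLaw Kr t (k⁻¹ * 1)
        ≤ (Nat.card {σ : Perm V // ∀ v, β (K + 1) (σ v) = β (K + 1) v} : ℝ) *
          (stirLaw Kr t 1 * S) := mul_le_mul_of_nonneg_left h2 (Nat.cast_nonneg _)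
      _ = stirLaw Kr t 1 * ((Nat.card {σ : Perm V // ∀ v, β (K + 1) (σ v) = β (K + 1) v} : ℝ) *
          S) := by ring
      _ ≤ stirLaw Kr t 1 * ((Nat.card {σ : Perm V // ∀ v, β K (σ v) = β K v} : ℝ) *
          Zf q (R (K + 1)) t) := mul_le_mul_of_nonneg_left h3 hl1
      _ = ((Nat.card {σ : Perm V // ∀ v, β K (σ v) = β K v} : ℝ) * stirLaw Kr t 1) *
          Zf q (R (K + 1)) t := by ring
      _ ≤ _ := mul_le_mul_of_nonneg_right ih hz

end Pool.Agent.Y764.LQ
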